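import Pool.Agent.helper80.EN.Spec

/-!
Row STE of the plan EN: the induction over the class InL.
-/

set_option autoImplicit false

namespace Pool.Agent.helper80.EN

open Subgroup

universe u

/-- The restriction of `f` to the preimage of `N`, and its kernel is good. -/
theorem STE_ker (hG : GIS_stmt.{u}) {K H : Type u} [Group K] [Group H] (f : K →* H)
    (N : Subgroup H) (hf : Good f.ker) (f1 : N.comap f →* N)
    (h1 : ∀ x, (f1 x : H) = f x.1) : Good f1.ker := by
  have hx : ∀ x : f1.ker, ((x : N.comap f) : K) ∈ f.ker := by
    intro x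
    have h2 : f1 (x : N.comap f) = 1 := x.2
    rw [MonoidHom.mem_ker, ← h1, h2]
    rfl
  let g : f1.ker →* f.ker :=
    { toFun := fun x => ⟨((x : N.comap f) : K), hx x⟩
      map_one' := rfl
      map_mul' := fun _ _ => rfl }
  refine hG.1 f1.ker f.ker g ?_ hf
  intro x y hxy
  have h3 : ((x : N.comap f) : K) = ((y : N.comap f) : K) :=
    congrArg (fun z : f.ker => (z : K)) hxy
  exact Subtype.ext (Subtype.ext h3)

/-- The restriction of `f` to the preimage of `N`. -/
def STE_res {K H : Type u} [Group K] [Group H] (f : K →* H) (N : Subgroup H) :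
    N.comap f →* N where
  toFun := fun x => ⟨f x.1, x.2⟩
  map_one' := Subtype.ext (by simp)
  map_mul' := fun x y => Subtype.ext (by simp)

theorem STE (hG : GIS_stmt.{u}) (hL : LIN_stmt.{u}) : STE_stmt.{u} := by
  intro H _ hH
  induction hH with
  | linear F n g hg =>
    intro K _ f hf
    exact hL F n _ g hg K f hf
  | sub g hg h ih =>
    intro K _ f hf
    refine ih K (g.comp f) ?_
    have h1 : (g.comp f).ker = f.ker := by
      ext x
      simp only [MonoidHom.mem_ker, MonoidHom.comp_apply]
      constructor
      · intro hx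
        exact hg (by rw [hx, map_one])
      · intro hx
        rw [hx, map_one]
    rw [h1]
    exact hf
  | ext N h1 h2 ih1 ih2 =>
    intro K _ f hf
    have hK1 : Good (N.comap f) :=
      ih1 (N.comap f) (STE_res f N) (STE_ker hG f N hf (STE_res f N) fun _ => rfl)
    refine ih2 K ((QuotientGroup.mk' N).comp f) ?_
    have h3 : ((QuotientGroup.mk' N).comp f).ker = N.comap f := by
      ext x
      simp only [MonoidHom.mem_ker, MonoidHom.comp_apply, QuotientGroup.mk'_apply,
        QuotientGroup.eq_one_iff, Subgroup.mem_comap]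
    rw [h3]
    exact hK1
  | union S hS h ih =>
    intro K _ f hf B hB
    classical
    obtain ⟨T, hT⟩ := hB
    set s := T.image f with hs
    have hK1 : Good ((S s).comap f) :=
      ih s ((S s).comap f) (STE_res f (S s)) (STE_ker hG f (S s) hf (STE_res f (S s)) fun _ => rfl)
    have hBle : B ≤ (S s).comap f := by
      rw [← hT, Subgroup.closure_le]
      intro x hx
      have h4 : f x ∈ (s : Set _) := by
        rw [hs]
        exact Finset.mem_coe.2 (Finset.mem_image_of_mem f (Finset.mem_coe.1 hx))
      exact hS s h4
    have hBfg : Group.FG B := (Group.fg_iff_subgroup_fg B).2 ⟨T, hT⟩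
    let e : B.subgroupOf ((S s).comap f) ≃* B := Subgroup.subgroupOfEquivOfLe hBle
    have hfg' : Group.FG (B.subgroupOf ((S s).comap f)) :=
      Group.fg_of_surjective (f := e.symm.toMonoidHom) e.symm.surjective
    have hP : P (B.subgroupOf ((S s).comap f)) :=
      hK1 _ ((Group.fg_iff_subgroup_fg _).1 hfg')
    exact hG.2 _ _ e hP

end Pool.Agent.helper80.EN
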